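import Pool.Agent.K3h72.BC.Fin

set_option autoImplicit false

/-!
# Billiards in almost every convex polygon: invariant functions continuous in the position

Let no angle of the convex polygon `P` be a rational multiple of `π`; this holds for almost every
polygon. Let `f` be a measurable function of the state (position, direction) which is invariant
under the billiard flow; no regularity in the direction is assumed.

* If for almost every direction `f` agrees almost everywhere with a continuous function of the
  position, then `f` is constant almost everywhere.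
* If for almost every direction `f` agrees almost everywhere with a function of the position which
  is continuous at almost every point and at the points of the lines through the vertices in this
  direction, then `f` takes almost everywhere at most as many values as `P` has vertices.
-/

namespace Pool.Agent.Results.MP_7bc51d_an.ContinuousInPosition

open Pool.Agent.W780 Pool.Agent.W780.BB Pool.Agent.W780.PG MeasureTheory Pool.Agent.TH103.BL
open Pool.Agent.K3h72.BC

open scoped Real

theorem result (n : ℕ) :
    (∀ᵐ p : Fin (n + 3) → ℂ, IsConvexPolygon p → ∀ i, Irrational (ang p i / π)) ∧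
    ∀ p : Fin (n + 3) → ℂ, IsConvexPolygon p → (∀ i, Irrational (ang p i / π)) →
      ∀ f : ℂ × ℝ → ℝ, Measurable f → IsInvariantFun p f →
        ((∀ᵐ θ : ℝ, ∃ g : ℂ → ℝ, (∀ᵐ z : ℂ, z ∈ region p → f (z, θ) = g z) ∧
            ContinuousOn g (region p)) →
          ∃ c : ℝ, ∀ᵐ x : ℂ × ℝ, x.1 ∈ region p → f x = c) ∧
        ((∀ᵐ θ : ℝ, ∃ g : ℂ → ℝ, (∀ᵐ z : ℂ, z ∈ region p → f (z, θ) = g z) ∧
            (∀ᵐ z : ℂ, z ∈ region p → ContinuousAt g z) ∧
            ∀ i, ∀ z ∈ region p, sd p i (z, θ) = 0 → ContinuousAt g z) →
          ∃ c : Fin (n + 3) → ℝ, ∀ᵐ x : ℂ × ℝ, x.1 ∈ region p → ∃ i, f x = c i) :=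
  ⟨ae_irrational n, fun _ hp hirr _ hf hI =>
    ⟨ess_const hp hirr hf hI, ess_values hp hirr hf hI⟩⟩

end Pool.Agent.Results.MP_7bc51d_an.ContinuousInPosition
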