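import Pool.Agent.K3h72.BC.FinS

set_option autoImplicit false

/-!
# Billiards in almost every convex polygon: invariant functions of integrable positional variation

Let no angle of the convex polygon `P` be a rational multiple of `π`; this holds for almost every
polygon. Let `f` be a measurable function of the state (position, direction) which is invariant
under the billiard flow and whose positional variation is integrable: for almost every direction
`θ` the function `f (·, θ)` agrees almost everywhere in `P` with a function of the offset of the
line through the position in the direction `θ`, whose total variation is at most `V θ`, where `V`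
is integrable. No regularity in the direction is assumed. Then `f` takes almost
everywhere at most as many values as `P` has vertices, it does not change when the direction is
reversed, and near each vertex it is constant, with the same value for almost every direction.
In particular, if more invariant sets than `P` has vertices are pairwise disjoint and the
indicator functions of all of them have integrable positional variation, then one of these sets
is null.
-/

namespace Pool.Agent.Results.MP_7bc51d_an.FinitePositionalVariation

open Pool.Agent.W780 Pool.Agent.W780.BB Pool.Agent.W780.PG MeasureTheory Pool.Agent.TH103.BL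
open Pool.Agent.K3h72.BC

open scoped Real

theorem result (n : ℕ) :
    (∀ᵐ p : Fin (n + 3) → ℂ, IsConvexPolygon p → ∀ i, Irrational (ang p i / π)) ∧
    ∀ p : Fin (n + 3) → ℂ, IsConvexPolygon p → (∀ i, Irrational (ang p i / π)) →
      (∀ f : ℂ × ℝ → ℝ, Measurable f → IsInvariantFun p f → FinitePositionalVariation p f →
        ∃ c : Fin (n + 3) → ℝ,
          (∀ᵐ x : ℂ × ℝ, x.1 ∈ region p → (∃ i, f x = c i) ∧ f (x.1, x.2 + π) = f x) ∧
          ∀ᵐ θ : ℝ, ∀ i, ∃ r : ℝ, 0 < r ∧
            ∀ᵐ z : ℂ, z ∈ region p → ‖z - p i‖ < r → f (z, θ) = c i) ∧
      ∀ E : Fin (n + 4) → Set (ℂ × ℝ), (∀ k, MeasurableSet (E k)) →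
        (∀ k l, k ≠ l → Disjoint (E k) (E l)) →
        (∀ k, IsInvariantFun p ((E k).indicator 1) ∧
          FinitePositionalVariation p ((E k).indicator 1)) →
        ∃ k, ∀ᵐ x : ℂ × ℝ, x.1 ∈ region p → x ∉ E k :=
  ⟨ae_irrational n, fun _ hp hirr => ⟨fun _ hf hI hFV => fpv_main hp hirr hf hI hFV,
    fun E hm hd hE => fpv_sets hp hirr E hm hd hE⟩⟩

end Pool.Agent.Results.MP_7bc51d_an.FinitePositionalVariation
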