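import Pool.Agent.K3h17.BK.MainA

set_option autoImplicit false

/-!
# Billiards in convex polygons: invariant sets and eigenfunctions at the scale `h log (1 / h)`

Let `P` be a convex polygon. There is a function `Λ` tending to infinity at `0`, depending only on
`P`, such that the following holds. Let `A` be a measurable set of states (position, direction)
which is invariant under the billiard flow, and let `om p A h` be the measure of the set of states
whose membership in `A` changes when the direction is turned by `h`. If
`om p A h ≤ Λ h * (h log (1 / h))` for a sequence of angles `h` tending to `0`, then `A` depends, up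
to a null set, only on the direction, and `A` is null or conull if `P` has an angle which is not a
rational multiple of `π`. In particular this holds if `om p A h = O (h log (1 / h))` along a
sequence. The same is shown for eigenfunctions of the flow and of the collision map. The proof
bounds the set of states whose trajectories are close to vertices both in the past and in the
future by the number of itineraries, which grows subexponentially.
-/

namespace Pool.Agent.Results.MP_7bc51d_an.PerimeterAtLogScale

open Pool.Agent.W780 Pool.Agent.W780.BB Pool.Agent.W780.PG MeasureTheory Pool.Agent.TH578.BE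
  Pool.Agent.K3h17.BK Filter Topology

open scoped Real

theorem result {n : ℕ} {p : Fin (n + 3) → ℂ} (hp : IsConvexPolygon p) :
    ∃ Λ : ℝ → ℝ, Tendsto Λ (𝓝[>] 0) atTop ∧
      (∀ (ω : ℝ) (χ : Fin (n + 3) → ℂ), (∀ i, ‖χ i‖ = 1) → ∀ f : ℂ × ℝ → ℂ, Measurable f →
        IsEigenfunction p ω χ f → Below Λ (modulus p f) →
          (ω ≠ 0 → ∀ᵐ x : ℂ × ℝ, x ∈ phase p → f x = 0) ∧
          (ω = 0 → ∃ g : ℝ → ℂ, Measurable g ∧ ∀ᵐ x : ℂ × ℝ, x ∈ phase p → f x = g x.2) ∧
          ((∃ i, Irrational (ang p i / π)) → (∀ i, χ i = 1 ∨ χ i = -1) →
            ∃ c : ℂ, (∀ᵐ x : ℂ × ℝ, x ∈ phase p → f x = c) ∧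
              (c ≠ 0 → ω = 0 ∧ ∀ i, χ i = 1))) ∧
      ((∃ i, Irrational (ang p i / π)) ↔
        ∀ A : Set (ℂ × ℝ), MeasurableSet A → IsInvariant p A → Below Λ (om p A) →
          IsTrivial p A) :=
  main_A hp

end Pool.Agent.Results.MP_7bc51d_an.PerimeterAtLogScale
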