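import Pool.Agent.K3h17.BT.MainB

set_option autoImplicit false

/-!
# Billiards in almost every convex polygon: complexity and invariant sets

For almost every convex `(n + 3)`-gon the number of itineraries of length at most `k` is at most
`exp (C (k log (k + 1)) ^ (2 / 3))`. Let `A` be a measurable set of states (position, direction)
invariant under the billiard flow, and let `om p A h` be the measure of the set of states whose
membership in `A` changes when the direction is turned by `h`. If the lower limit of
`om p A h * log log (1 / h) / (h * log (1 / h) ^ (3 / 2))` is `0`, then `A` is null or conull. The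
same holds for functions which are multiplied by `exp (i ω s)` under free motion for the time `s`
and by `χ i = ± 1` at each reflection in side `i`: they are constant, and zero unless `ω = 0` and
all `χ i = 1`.

The vertices of the polygons met by unfolded trajectories are quotients of polynomials with
integer coefficients in the coordinates of the vertices of `P`. For almost every `P` the
determinants of triples of them are zero or bounded below by `exp (-C m ^ 2)` for all itineraries
of length at most `m`. So in a box of size `exp (-C m ^ 2)` in the space of lines the vertices met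
are collinear, and there are at most linearly many itineraries of length `m`.
-/

namespace Pool.Agent.Results.MP_7bc51d_an.TypicalComplexity

open Pool.Agent.W780 Pool.Agent.W780.BB Pool.Agent.W780.PG MeasureTheory Pool.Agent.TH578.BE
  Pool.Agent.K3h17.BK Pool.Agent.K3h17.BT

open scoped Real

theorem result (n : ℕ) : ∀ᵐ p : Fin (n + 3) → ℂ, IsConvexPolygon p →
    (∃ C : ℝ, ∀ k : ℕ, 1 ≤ k → ((itin p k).ncard : ℝ) ≤
      Real.exp (C * ((k : ℝ) * Real.log ((k : ℝ) + 1)) ^ (2 / 3 : ℝ))) ∧
    (∀ A : Set (ℂ × ℝ), MeasurableSet A → IsInvariant p A → TypBelow (om p A) →
      IsTrivial p A) ∧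
    (∀ (ω : ℝ) (χ : Fin (n + 3) → ℂ), (∀ i, χ i = 1 ∨ χ i = -1) → ∀ f : ℂ × ℝ → ℂ,
      Measurable f → IsEigenfunction p ω χ f → TypBelow (modulus p f) →
        ∃ c : ℂ, (∀ᵐ x : ℂ × ℝ, x ∈ phase p → f x = c) ∧
          (c ≠ 0 → ω = 0 ∧ ∀ i, χ i = 1)) :=
  main_B n

end Pool.Agent.Results.MP_7bc51d_an.TypicalComplexity
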